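import Mathlib
import Pool.Agent.X50.PV.Def
import Pool.Agent.X50.PV.Final

/-!
# Perimeter variance of a degenerate drifting walk can be of order at least `√n`

With only a second moment, `Var L_n = O(log n)` fails: there is a step `Z = (1, 4^K - 31/28)` with
`K` geometric for which `Var L_n ≥ √n / 500`, so `Var L_n / log n → ∞`.
-/

namespace Pool.Agent.Results.MP_1c2560_pr.HeavyTail

open MeasureTheory ProbabilityTheory Filter Pool.Agent.X50.PV

theorem result : ∃ (Ω : Type) (_ : MeasurableSpace Ω) (P : Measure Ω) (Z : ℕ → Ω → E2),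
    IsProbabilityMeasure P ∧ (∀ i, Measurable (Z i)) ∧ iIndepFun Z P ∧
    (∀ i, IdentDistrib (Z i) (Z 0) P P) ∧ Integrable (fun ω => ‖Z 0 ω‖ ^ 2) P ∧
    drift P Z ≠ 0 ∧ sig P Z (hat (drift P Z)) = 0 ∧ 0 < sig P Z (perp (hat (drift P Z))) ∧
    (∀ n, MemLp (L Z n) 2 P) ∧
    (∀ n : ℕ, 1 ≤ n → Real.sqrt n / 500 ≤ Var[L Z n; P]) ∧
    Tendsto (fun n : ℕ => Var[L Z n; P] / Real.log n) atTop atTop :=
  ⟨ℕ → ℕ, inferInstance, Pm, Z0, inferInstance, measurable_Z, indep, ident, int_Z, drift_ne,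
    sig_par, by rw [sig_perp]; norm_num, memLp_L, var_sqrt, tendsto_ratio⟩

end Pool.Agent.Results.MP_1c2560_pr.HeavyTail
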